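import Mathlib
import Pool.Agent.V11300.MS.Main

/-!
# The densities of primes in the intervals of length `(log x) ^ a` stabilise, for almost all `x`

`R a x` is the number of primes in `(x, x + (log x) ^ a]` divided by `(log x) ^ a / log x`. Up to any
error `ε` and off a set of `x ≤ X` of proportion `η`, the function `a ↦ R a x` is constant on all but `K` of
any number of disjoint windows of exponents `a`, where `K` depends only on `ε` and `η`. So it converges for
`a → ∞` in the metastable (finitary) sense: for every function `F` there is a bounded `a` such that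
`R b x` is constant for `a ≤ b ≤ F a`. The bound for the number of returns of the density of the primes is
that of the starting files (`Pool.Agent.TH110.Zig`, from the rising sun lemma and the prime number
theorem).
-/

set_option autoImplicit false

open MeasureTheory Filter

namespace Pool.Agent.Results.MP_b09185_nt.MetastableLimit

/-- the number of primes `≤ x` -/
noncomputable def primesUpTo (x : ℝ) : ℝ := (Nat.primeCounting ⌊x⌋₊ : ℝ)

/-- `R a x = (log x / (log x) ^ a) (π(x + (log x) ^ a) - π(x))` -/
noncomputable def R (a x : ℝ) : ℝ :=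
  Real.log x / Real.log x ^ a * (primesUpTo (x + Real.log x ^ a) - primesUpTo x)

/-- the `x ∈ (2, X]` for which `b ↦ R b x` varies by more than `ε` on `[u, v]` -/
def Varies (X ε u v : ℝ) : Set ℝ :=
  {x | 2 < x ∧ x ≤ X ∧ ∃ s ∈ Set.Icc u v, ∃ t ∈ Set.Icc u v, ε < |R s x - R t x|}

theorem varies_eq (X ε u v : ℝ) : Varies X ε u v =
    {x | 2 < x ∧ x ≤ X ∧ ¬ Pool.Agent.V11300.MS.Steady u v ε x} := by
  have hR : ∀ a x : ℝ, R a x = Pool.Agent.V11300.MS.R a x := by
    intro a x
    unfold R Pool.Agent.V11300.MS.R Pool.Agent.V11300.MS.dens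
    show Real.log x / Real.log x ^ a * (Pool.Agent.V11300.MS.prc (x + Real.log x ^ a) -
      Pool.Agent.V11300.MS.prc x) = _
    ring
  ext x
  unfold Varies Pool.Agent.V11300.MS.Steady
  simp only [hR, Set.mem_ofPred_eq]
  constructor
  · rintro ⟨h1, h2, s, hs, t, ht, hst⟩
    refine ⟨h1, h2, fun h => ?_⟩
    rcases lt_abs.1 hst with h3 | h3
    · exact absurd (h s hs t ht) (not_le.2 h3)
    · have := h t ht s hs
      linarith
  · rintro ⟨h1, h2, h3⟩
    push Not at h3
    obtain ⟨s, hs, t, ht, hst⟩ := h3
    exact ⟨h1, h2, s, hs, t, ht, lt_of_lt_of_le hst (le_abs_self _)⟩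

theorem windows (ε η : ℝ) (hε : 0 < ε) (hη : 0 < η) : ∃ K : ℕ, ∀ᶠ X : ℝ in atTop,
    ∀ (M : ℕ) (u v : ℕ → ℝ), (∀ i j : ℕ, i < j → j < M → v i < u j) →
      (∀ i < M, Real.log X ^ v i ≤ Real.sqrt X) →
      ((Finset.range M).filter (fun i => η * X < volume.real (Varies X ε (u i) (v i)))).card ≤ K := by
  obtain ⟨K, hK⟩ := Pool.Agent.V11300.MS.main ε η hε hη
  refine ⟨K, ?_⟩
  filter_upwards [hK] with X hX M u v huv hlen
  apply hX u v
  · intro i _ j hj hij
    exact huv i j hij (Finset.mem_range.1 (Finset.mem_filter.1 hj).1)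
  · intro i hi
    exact hlen i (Finset.mem_range.1 (Finset.mem_filter.1 hi).1)
  · intro i hi
    have := (Finset.mem_filter.1 hi).2
    rwa [varies_eq] at this

/-- **The densities stabilise.** For all `ε, η > 0` there is `K` such that for all large `X` and every finite
sequence of disjoint windows `[u i, v i]` of exponents, ordered increasingly, with `(log X) ^ (v i) ≤ √X`, all
but at most `K` of the windows have the property that off a set of measure at most `η X` of `x ≤ X` the
function `b ↦ R b x` varies by at most `ε` on the window. Consequently, for every function `F` and every `a₀`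
there is `A` such that for all large `X` some `a ∈ [a₀, A]` has the property that off a set of measure at most
`η X` of `x ≤ X` the function `b ↦ R b x` varies by at most `ε` on `[a, F a]`. -/
theorem result (ε η : ℝ) (hε : 0 < ε) (hη : 0 < η) :
    (∃ K : ℕ, ∀ᶠ X : ℝ in atTop, ∀ (M : ℕ) (u v : ℕ → ℝ), (∀ i j : ℕ, i < j → j < M → v i < u j) →
      (∀ i < M, Real.log X ^ v i ≤ Real.sqrt X) →
      ((Finset.range M).filter (fun i => η * X < volume.real (Varies X ε (u i) (v i)))).card ≤ K) ∧
    ∀ (F : ℝ → ℝ) (a₀ : ℝ), ∃ A : ℝ, ∀ᶠ X : ℝ in atTop, ∃ a : ℝ, a₀ ≤ a ∧ a ≤ A ∧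
      volume.real (Varies X ε a (F a)) ≤ η * X := by
  refine ⟨windows ε η hε hη, fun F a₀ => ?_⟩
  obtain ⟨K, hK⟩ := windows ε η hε hη
  set u : ℕ → ℝ := fun n => Nat.rec a₀ (fun _ a => max (F a) a + 1) n with hu
  have hu1 : ∀ i, u (i + 1) = max (F (u i)) (u i) + 1 := fun i => rfl
  have hmono : Monotone u := by
    apply monotone_nat_of_le_succ
    intro i
    rw [hu1]
    have := le_max_right (F (u i)) (u i)
    linarith
  have hlt : ∀ i j : ℕ, i < j → F (u i) < u j := by
    intro i j hij
    have h1 := hmono (show i + 1 ≤ j from hij)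
    rw [hu1] at h1
    have := le_max_left (F (u i)) (u i)
    linarith
  refine ⟨u K, ?_⟩
  have hlen : ∀ᶠ X : ℝ in atTop, ∀ i ∈ Finset.range (K + 1), Real.log X ^ (F (u i)) ≤ Real.sqrt X := by
    rw [Filter.eventually_all_finset]
    intro i _
    have h1 := (isLittleO_log_rpow_rpow_atTop (F (u i)) (show (0 : ℝ) < 1 / 2 by norm_num)).def one_pos
    filter_upwards [h1, eventually_ge_atTop 1] with x hx hx1
    have hl : 0 ≤ Real.log x := Real.log_nonneg hx1
    rw [one_mul, Real.norm_of_nonneg (Real.rpow_nonneg hl _),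
      Real.norm_of_nonneg (Real.rpow_nonneg (by linarith) _), ← Real.sqrt_eq_rpow] at hx
    exact hx
  filter_upwards [hK, hlen] with X hX hX2
  have h1 := hX (K + 1) u (fun i => F (u i)) (fun i j hij _ => hlt i j hij)
    (fun i hi => hX2 i (Finset.mem_range.2 hi))
  by_contra hcon
  push Not at hcon
  have h2 : (Finset.range (K + 1)).filter (fun i => η * X < volume.real (Varies X ε (u i) (F (u i)))) =
      Finset.range (K + 1) := by
    rw [Finset.filter_eq_self]
    intro i hi
    rw [Finset.mem_range] at hi
    exact hcon (u i) (hmono (Nat.zero_le i)) (hmono (by omega))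
  rw [h2, Finset.card_range] at h1
  omega

end Pool.Agent.Results.MP_b09185_nt.MetastableLimit
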