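import Pool.Agent.Results.MP_31d0eb_nt.PolynomialReturns
import Pool.Agent.V11270.HP.RealFK

/-!
# Patterns of points with typical primes in short intervals on all scales

No hypothesis is assumed.  For `0 < δ < 1` there are `K` and `lam` such that the following holds for every `k`: there
are `r` and `η > 0` such that for all large `N` and arbitrary real vectors `g_1, …, g_r` in `ℝ^k` (with
`∑ |g_i j| ≤ N`) there is a nonempty set `J` of indices for which the points `x` in `[3, N]` such that `x` and all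
the `k` points `x + ∑_{i ∈ J} g_i j` are good have measure at least `η N`; a point `x` is good if
`1 - δ ≤ (log x / H) (π(x + H) - π(x)) ≤ lam` for ALL `K log x ≤ H ≤ x / 2`.  For instance (all `g_i` equal) there is
an integer `1 ≤ n ≤ r` such that `x, x + n b_1, …, x + n b_k` are good, for any real `b_1, …, b_k`.

Proof.  The starting result `AllScales` (good integers have positive lower density) and the density Hales-Jewett
theorem (`V11270.HP.real_line`).
-/

set_option autoImplicit false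

open Filter Topology MeasureTheory

namespace Pool.Agent.Results.MP_b09185_nt.PatternsOfGoodPoints

/-- `(log x / H) (π(x + H) - π(x))` -/
noncomputable def R (x H : ℝ) : ℝ :=
  Real.log x / H * ((Nat.primeCounting ⌊x + H⌋₊ : ℝ) - Nat.primeCounting ⌊x⌋₊)

/-- the good points: `1 - δ ≤ R x H ≤ lam` for all `K log x ≤ H ≤ x / 2` -/
def Good (δ K lam x : ℝ) : Prop :=
  ∀ H : ℝ, K * Real.log x ≤ H → H ≤ x / 2 → 1 - δ ≤ R x H ∧ R x H ≤ lam

open Pool.Agent.Results.MP_31d0eb_nt.PolynomialReturns (primesIn GoodAtAllScales good_of)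

lemma primesIn_eq {t H : ℝ} (ht : 0 ≤ t) (hH : 0 ≤ H) :
    (primesIn t H : ℝ) = (Nat.primeCounting ⌊t + H⌋₊ : ℝ) - Nat.primeCounting ⌊t⌋₊ := by
  classical
  have h1 : {p : ℕ | p.Prime ∧ t < p ∧ (p : ℝ) ≤ t + H} =
      (((Finset.Ioc ⌊t⌋₊ ⌊t + H⌋₊).filter Nat.Prime : Finset ℕ) : Set ℕ) := by
    ext p
    rw [Finset.mem_coe, Finset.mem_filter, Finset.mem_Ioc, Set.mem_ofPred_eq, Nat.floor_lt ht,
      Nat.le_floor_iff (by positivity)]
    tauto
  unfold primesIn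
  rw [h1, Set.ncard_coe_finset]
  have h2 := Pool.Agent.H357R2.SI.pc_eq_sub (show ⌊t⌋₊ ≤ ⌊t + H⌋₊ from
    Nat.floor_mono (by linarith))
  rw [← h2]
  rfl

lemma good_iff {δ K lam t : ℝ} (hK : 0 < K) (ht : 3 ≤ t) (h : GoodAtAllScales δ K lam t) :
    Good δ K lam t := by
  intro H h1 h2
  have hL : 0 < Real.log t := Real.log_pos (by linarith)
  have hH : 0 < H := lt_of_lt_of_le (by positivity) h1
  obtain ⟨g1, g2⟩ := h H h1 h2
  rw [primesIn_eq (by linarith) hH.le] at g1 g2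
  unfold R
  obtain ⟨P, hP⟩ : ∃ P : ℝ, P = (Nat.primeCounting ⌊t + H⌋₊ : ℝ) - Nat.primeCounting ⌊t⌋₊ :=
    ⟨_, rfl⟩
  rw [← hP] at g1 g2 ⊢
  rw [div_le_iff₀ hL] at g1
  rw [le_div_iff₀ hL] at g2
  have e : Real.log t / H * P = P * Real.log t / H := by ring
  rw [e, le_div_iff₀ hH, div_le_iff₀ hH]
  exact ⟨g1, g2⟩

/-- **Patterns of good points.** -/
theorem result :
    -- arbitrary vectors
    ∀ δ : ℝ, 0 < δ → δ < 1 → ∃ K lam : ℝ, 0 < K ∧ 0 < lam ∧
      (∀ k : ℕ, ∃ (r : ℕ) (η : ℝ) (N₀ : ℕ), 0 < η ∧ ∀ N : ℕ, N₀ ≤ N →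
        ∀ g : Fin r → Fin k → ℝ, (∀ j, ∑ i, |g i j| ≤ N) → ∃ J : Finset (Fin r), J.Nonempty ∧
          ENNReal.ofReal (η * N) ≤ volume {x : ℝ | (3 ≤ x ∧ x ≤ N ∧ Good δ K lam x) ∧
            ∀ j, 3 ≤ x + ∑ i ∈ J, g i j ∧ x + ∑ i ∈ J, g i j ≤ N ∧
              Good δ K lam (x + ∑ i ∈ J, g i j)}) ∧
      -- homothetic copies
      (∀ k : ℕ, ∃ (r : ℕ) (η : ℝ) (N₀ : ℕ), 0 < η ∧ ∀ N : ℕ, N₀ ≤ N →
        ∀ b : Fin k → ℝ, (∀ j, r * |b j| ≤ N) → ∃ n : ℕ, 1 ≤ n ∧ n ≤ r ∧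
          ENNReal.ofReal (η * N) ≤ volume {x : ℝ | (3 ≤ x ∧ x ≤ N ∧ Good δ K lam x) ∧
            ∀ j, 3 ≤ x + n * b j ∧ x + n * b j ≤ N ∧ Good δ K lam (x + n * b j)}) := by
  classical
  intro δ hδ0 hδ1
  obtain ⟨K, lam, c, hK, hlam, hc, hgood⟩ := Pool.Agent.Results.MP_31d0eb_nt.AllScales.result δ hδ0 hδ1
  obtain ⟨N₁, hN₁⟩ := hgood.exists_forall_of_atTop
  have main : ∀ k : ℕ, ∃ (r : ℕ) (η : ℝ) (N₀ : ℕ), 0 < η ∧ ∀ N : ℕ, N₀ ≤ N →
      ∀ g : Fin r → Fin k → ℝ, (∀ j, ∑ i, |g i j| ≤ N) → ∃ J : Finset (Fin r), J.Nonempty ∧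
        ENNReal.ofReal (η * N) ≤ volume {x : ℝ | (3 ≤ x ∧ x ≤ N ∧
            Good δ K (2 * lam * (1 + 1 / K)) x) ∧
          ∀ j, 3 ≤ x + ∑ i ∈ J, g i j ∧ x + ∑ i ∈ J, g i j ≤ N ∧
            Good δ K (2 * lam * (1 + 1 / K)) (x + ∑ i ∈ J, g i j)} := by
    intro k
    obtain ⟨r, η, hη, hreal⟩ := V11270.HP.real_line k (c / 2) (by positivity)
    refine ⟨r, η, max (max N₁ 1) ⌈6 / c⌉₊, hη, fun N hN g hg => ?_⟩
    have hNN1 := hN₁ N ((le_max_left _ _).trans ((le_max_left _ _).trans hN))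
    have hN1 : 1 ≤ N := (le_max_right _ _).trans ((le_max_left _ _).trans hN)
    have hN0 : (0 : ℝ) < N := by exact_mod_cast hN1
    have hN6 : 6 / c ≤ N := by
      have h1 : ⌈6 / c⌉₊ ≤ N := (le_max_right _ _).trans hN
      exact (Nat.le_ceil _).trans (by exact_mod_cast h1)
    obtain ⟨S, hS⟩ : ∃ S : Finset ℕ, S = (Finset.range N).filter (fun n : ℕ => 3 ≤ n ∧
      ∀ H : ℝ, K * Real.log n ≤ H → H ≤ n →
        (1 - δ) * H / Real.log n ≤ Pool.Agent.H357R2.SI.piS n H ∧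
          (Pool.Agent.H357R2.SI.piS n H : ℝ) ≤ lam * H / Real.log n) := ⟨_, rfl⟩
    have hScard : c / 2 * N ≤ S.card := by
      have h1 : ((Finset.range N).filter (fun n : ℕ => ∀ H : ℝ, K * Real.log n ≤ H → H ≤ n →
          (1 - δ) * H / Real.log n ≤ Pool.Agent.H357R2.SI.piS n H ∧
            (Pool.Agent.H357R2.SI.piS n H : ℝ) ≤ lam * H / Real.log n)) ⊆ S ∪ Finset.range 3 := by
        intro n hn
        rw [Finset.mem_filter] at hn
        rw [Finset.mem_union, hS, Finset.mem_filter]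
        rcases lt_or_ge n 3 with h2 | h2
        · exact Or.inr (Finset.mem_range.2 h2)
        · exact Or.inl ⟨hn.1, h2, hn.2⟩
      have h2 := (Finset.card_le_card h1).trans (Finset.card_union_le _ _)
      rw [Finset.card_range] at h2
      have h3 : (((Finset.range N).filter (fun n : ℕ => ∀ H : ℝ, K * Real.log n ≤ H → H ≤ n →
          (1 - δ) * H / Real.log n ≤ Pool.Agent.H357R2.SI.piS n H ∧
            (Pool.Agent.H357R2.SI.piS n H : ℝ) ≤ lam * H / Real.log n)).card : ℝ) ≤ S.card + 3 := by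
        exact_mod_cast h2
      have h4 : 3 ≤ c / 2 * N := by
        rw [div_le_iff₀ hc] at hN6
        linarith
      linarith
    obtain ⟨G, hG⟩ : ∃ G : Set ℝ, G = ⋃ n ∈ S, Set.Ico (n : ℝ) (n + 1) := ⟨_, rfl⟩
    have hGm : MeasurableSet G := by
      rw [hG]
      exact Finset.measurableSet_biUnion _ fun n _ => measurableSet_Ico
    have hGgood : ∀ t ∈ G, 3 ≤ t ∧ t ≤ N ∧ Good δ K (2 * lam * (1 + 1 / K)) t := by
      intro t ht
      rw [hG, Set.mem_iUnion₂] at ht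
      obtain ⟨n, hn, ht1, ht2⟩ := ht
      rw [hS, Finset.mem_filter, Finset.mem_range] at hn
      obtain ⟨hn1, hn2, hn3⟩ := hn
      have h3 : (3 : ℝ) ≤ n := by exact_mod_cast hn2
      have h4 : (n : ℝ) + 1 ≤ N := by exact_mod_cast hn1
      exact ⟨by linarith, by linarith, good_iff hK (by linarith)
        (good_of hδ1 hK hlam hn2 hn3 ht1 ht2)⟩
    have hGs : G ⊆ Set.Icc (0 : ℝ) (0 + N) := by
      intro t ht
      obtain ⟨h1, h2, -⟩ := hGgood t ht
      exact ⟨by linarith, by linarith⟩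
    have hGv : ENNReal.ofReal (c / 2 * N) ≤ volume G := by
      have h1 : volume G = (S.card : ENNReal) := by
        rw [hG, measure_biUnion_finset ?_ fun n _ => measurableSet_Ico]
        · have : ∀ n ∈ S, volume (Set.Ico (n : ℝ) (n + 1)) = 1 := by
            intro n _
            rw [Real.volume_Ico]
            simp
          rw [Finset.sum_congr rfl this, Finset.sum_const, nsmul_eq_mul, mul_one]
        · intro n _ m _ hnm
          rw [Function.onFun, Set.disjoint_left]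
          rintro x ⟨hx1, hx2⟩ ⟨hx3, hx4⟩
          apply hnm
          have h2 : (n : ℝ) < m + 1 := by linarith
          have h3 : (m : ℝ) < n + 1 := by linarith
          have h2' : n < m + 1 := by exact_mod_cast h2
          have h3' : m < n + 1 := by exact_mod_cast h3
          omega
      rw [h1, ← ENNReal.ofReal_natCast]
      exact ENNReal.ofReal_le_ofReal hScard
    obtain ⟨J, hJ, hm⟩ := hreal N hN0 0 G hGm hGs hGv g hg
    refine ⟨J, hJ, hm.trans (measure_mono ?_)⟩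
    rintro t ⟨h1, h2⟩
    exact ⟨hGgood t h1, fun j => hGgood _ (h2 j)⟩
  refine ⟨K, 2 * lam * (1 + 1 / K), hK, by positivity, main, fun k => ?_⟩
  obtain ⟨r, η, N₀, hη, h⟩ := main k
  refine ⟨r, η, N₀, hη, fun N hN b hb => ?_⟩
  obtain ⟨J, hJ, h1⟩ := h N hN (fun _ j => b j) (fun j => by
    rw [Finset.sum_const, Finset.card_univ, Fintype.card_fin, nsmul_eq_mul]
    exact hb j)
  refine ⟨J.card, Finset.card_pos.2 hJ, (Finset.card_le_univ J).trans (le_of_eq
    (Fintype.card_fin r)), ?_⟩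
  refine h1.trans (measure_mono ?_)
  rintro t ⟨h2, h3⟩
  refine ⟨h2, fun j => ?_⟩
  have h4 := h3 j
  rw [Finset.sum_const, nsmul_eq_mul] at h4
  exact h4

end Pool.Agent.Results.MP_b09185_nt.PatternsOfGoodPoints
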