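import Pool.Agent.V11316.AT22

/-!
# Primes near the sums of two sparse sets

Let `A` and `B` be ARBITRARY sets of integers in `[0, N]` and let `D = N / (|A| |B|) ^ (1 / 2)` measure their sparsity. We show: if `D`
is at most a power of `log N` (any fixed power) then for all lengths `H ≥ C D ^ τ`, for any fixed `τ > 1`, the mean value over
`a ∈ A`, `b ∈ B` of the number of primes in `(a + b, a + b + H]` is `H / log N` up to a relative error `ε`, with a constant `C` which
depends on `τ`, `ε` and the power only; and for all but at most `T` of the integers `b` in `[0, N]` the mean value over `a ∈ A` alone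
is `H / log N` up to a relative error `ε`, if `H ≥ C (N / (|A| T) ^ (1 / 2)) ^ τ`.

Two cases are: sets of positive density, and all lengths from a constant on; and sets with at least `δ N / log N` elements (for
example relatively dense sets of primes), and all lengths from `(log N) ^ τ` on, for every `τ > 1` (part (3)).

For lengths up to about `log D` the statement is false: take for `A` and `B` the multiples of the product of the small primes. So the
lengths have to grow with `D`, and in the case of positive density they have to be at least a constant.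

Method: circle method. The exponential sum over the primes, times the difference of the kernels of a short and of a long window, is
at most `ε N / D` at all frequencies: Vinogradov's bound on the minor arcs; on the major arcs `c / q`, `q` at most any power of the
logarithm, the Siegel-Walfisz theorem bounds the first factor by `N / φ(q)` and the second one is at most `q / (q + H)`.
-/

set_option autoImplicit false

namespace Pool.Agent.Results.MP_b09185_nt.SumsAtConstantScale

open Finset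

/-- the number of primes in `(x, x + H]` -/
def primesIn (x H : ℕ) : ℕ := ((Ioc x (x + H)).filter Nat.Prime).card

/-- the mean value over `a ∈ A` of the number of primes in `(a + b, a + b + H]`, divided by `H / log N` -/
noncomputable def mean (N H : ℕ) (A : Finset ℕ) (b : ℕ) : ℝ :=
  (∑ a ∈ A, (primesIn (a + b) H : ℝ)) / A.card / (H / Real.log N)

lemma mean_of_count {N H : ℕ} (hL : 0 < Real.log N) (hH0 : (0 : ℝ) < H) {A B : Finset ℕ} (hA0 : (0 : ℝ) < A.card) {η : ℝ}
    (h2 : |W301.SS.PCs A B H * Real.log N - (A.card : ℝ) * B.card * H| ≤ η * ((A.card : ℝ) * B.card * H)) :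
    |∑ b ∈ B, (mean N H A b - 1)| ≤ η * B.card := by
  have e : ∑ b ∈ B, (mean N H A b - 1) =
      (W301.SS.PCs A B H * Real.log N - (A.card : ℝ) * B.card * H) / (A.card * H) := by
    have e1 : W301.SS.PCs A B H = ∑ b ∈ B, ∑ a ∈ A, (primesIn (a + b) H : ℝ) := by
      unfold W301.SS.PCs
      rw [sum_comm]
      rfl
    have hL' := hL.ne'
    rw [e1, sum_sub_distrib, sum_const, nsmul_eq_mul, mul_one]
    unfold mean
    rw [← sum_div, ← sum_div]
    field_simp
  rw [e, abs_div, abs_of_pos (mul_pos hA0 hH0), div_le_iff₀ (mul_pos hA0 hH0)]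
  exact h2.trans (le_of_eq (by ring))

lemma mean_sub {N H : ℕ} {A B : Finset ℕ} (hB0 : (0 : ℝ) < B.card) {η : ℝ}
    (h2 : |∑ b ∈ B, (mean N H A b - 1)| ≤ η * B.card) : |(∑ b ∈ B, mean N H A b) / B.card - 1| ≤ η := by
  rw [sum_sub_distrib, sum_const, nsmul_eq_mul, mul_one] at h2
  have e : (∑ b ∈ B, mean N H A b) / B.card - 1 = (∑ b ∈ B, mean N H A b - B.card) / B.card := by
    field_simp
  rw [e, abs_div, abs_of_pos hB0, div_le_iff₀ hB0]
  exact h2

open Classical in
/-- **Main theorem.** For all `K`, `τ > 1`, `ε > 0` there are `C` and `N₀` such that for all `N ≥ N₀`: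
(1) for all sets `A`, `B` of integers in `[0, N]` with `N² ≤ |A| |B| (log N) ^ K` and all integers `H ≤ 2 N` with
`C (N / √(|A| |B|)) ^ τ ≤ H` the mean value over `a ∈ A`, `b ∈ B` of the number of primes in `(a + b, a + b + H]` is `H / log N`, up to
a relative error `ε`;
(2) for every set `A` of integers in `[0, N]`, every real `T > 0` with `N² ≤ |A| T (log N) ^ K` and all integers `H ≤ 2 N` with
`C (N / √(|A| T)) ^ τ ≤ H`, for all integers `b` in `[0, N]` but at most `T` the mean value over `a ∈ A` is `H / log N`, up to a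
relative error `ε`;
(3) for all sets `A`, `B` of at least `δ N / log N` integers in `[0, N]` (for example, relatively dense sets of primes) and all
integers `H` with `(log N) ^ τ ≤ H ≤ 2 N` the mean value over `a ∈ A`, `b ∈ B` is `H / log N`, up to a relative error `ε`. -/
theorem result (K : ℕ) (δ τ ε : ℝ) (hδ : 0 < δ) (hτ : 1 < τ) (hε : 0 < ε) : ∃ (C : ℝ) (N₀ : ℕ), 0 < C ∧ ∀ N : ℕ, N₀ ≤ N →
    (∀ A B : Finset ℕ, (∀ a ∈ A, a ≤ N) → (∀ b ∈ B, b ≤ N) → (N : ℝ) ^ 2 ≤ (A.card : ℝ) * B.card * Real.log N ^ K →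
      ∀ H : ℕ, C * (N / √((A.card : ℝ) * B.card)) ^ τ ≤ H → H ≤ 2 * N → |(∑ b ∈ B, mean N H A b) / B.card - 1| ≤ ε) ∧
    (∀ A : Finset ℕ, (∀ a ∈ A, a ≤ N) → ∀ T : ℝ, 0 < T → (N : ℝ) ^ 2 ≤ (A.card : ℝ) * T * Real.log N ^ K →
      ∀ H : ℕ, C * (N / √((A.card : ℝ) * T)) ^ τ ≤ H → H ≤ 2 * N →
      (((range (N + 1)).filter (fun b => ε < |mean N H A b - 1|)).card : ℝ) ≤ T) ∧
    (∀ A B : Finset ℕ, (∀ a ∈ A, a ≤ N) → (∀ b ∈ B, b ≤ N) → δ * (N / Real.log N) ≤ A.card → δ * (N / Real.log N) ≤ B.card →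
      ∀ H : ℕ, Real.log N ^ τ ≤ H → H ≤ 2 * N → |(∑ b ∈ B, mean N H A b) / B.card - 1| ≤ ε) := by
  obtain ⟨η, hη⟩ : ∃ η, η = min 1 (ε / 2) := ⟨_, rfl⟩
  have hη0 : 0 < η := by rw [hη]; exact lt_min one_pos (by linarith only [hε])
  have hη1 : η ≤ 1 := by rw [hη]; exact min_le_left _ _
  have hηε : η ≤ ε / 2 := by rw [hη]; exact min_le_right _ _
  have hτ0 : 0 < τ := by linarith only [hτ]
  obtain ⟨τ', hτ'⟩ : ∃ τ', τ' = (1 + τ) / 2 := ⟨_, rfl⟩
  have hτ'1 : 1 < τ' := by rw [hτ']; linarith only [hτ]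
  have hτ'0 : 0 < τ' := by linarith only [hτ'1]
  have hτ'τ : 0 < τ - τ' := by rw [hτ']; linarith only [hτ]
  obtain ⟨C₁, hC₁, hev⟩ := V11316.AT.count_sparse (K + 1) τ η hτ hη0 hη1
  obtain ⟨C₂, hC₂, hev2⟩ := V11316.AT.count_sparse 3 τ' η hτ'1 hη0 hη1
  have hlog : Filter.Tendsto (fun N : ℕ => Real.log (N : ℝ)) Filter.atTop Filter.atTop :=
    Real.tendsto_log_atTop.comp tendsto_natCast_atTop_atTop
  have hlogτ : Filter.Tendsto (fun N : ℕ => Real.log (N : ℝ) ^ (τ - τ')) Filter.atTop Filter.atTop :=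
    (tendsto_rpow_atTop hτ'τ).comp hlog
  obtain ⟨N₀, hN₀⟩ := Filter.eventually_atTop.1 ((hev.and hev2).and ((hlog.eventually_ge_atTop (2 + 1 / δ ^ 2)).and
    (hlogτ.eventually_ge_atTop (C₂ * (1 / δ) ^ τ'))))
  have h2τ : (1 : ℝ) ≤ 2 ^ τ := Real.one_le_rpow (by norm_num) hτ0.le
  refine ⟨2 ^ τ * C₁, N₀, by positivity, fun N hN => ?_⟩
  obtain ⟨⟨h1, h3⟩, hL2, hL3⟩ := hN₀ N hN
  have hδ2 : 0 < 1 / δ ^ 2 := by positivity
  obtain ⟨ℓ, hℓ⟩ : ∃ ℓ, ℓ = Real.log N := ⟨_, rfl⟩
  have hℓ2 : 2 ≤ ℓ := by rw [hℓ]; linarith only [hL2, hδ2]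
  have hℓ0 : 0 < ℓ := by linarith only [hℓ2]
  have hL : 0 < Real.log N := by rw [← hℓ]; exact hℓ0
  have hN1 : (0 : ℝ) < N := by
    rcases Nat.eq_zero_or_pos N with h0 | h0
    · subst h0
      simp at hL
    · exact_mod_cast h0
  rw [← hℓ] at h1 h3 hL2 hL3 ⊢
  -- products are positive
  have hpos : ∀ (x y : ℝ) (k : ℕ), 0 ≤ x → 0 ≤ y → (N : ℝ) ^ 2 ≤ x * y * ℓ ^ k → 0 < x ∧ 0 < y := by
    intro x y k hx hy h
    have hN2 : (0 : ℝ) < N ^ 2 := by positivity
    constructor
    · rcases hx.lt_or_eq with h0 | h0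
      · exact h0
      · rw [← h0, zero_mul, zero_mul] at h
        linarith only [h, hN2]
    · rcases hy.lt_or_eq with h0 | h0
      · exact h0
      · rw [← h0, mul_zero, zero_mul] at h
        linarith only [h, hN2]
  refine ⟨fun A B hA hB hAB H hH1 hH2 => ?_, fun A hA T hT hAT H hH1 hH2 => ?_, fun A B hA hB hAc hBc H hH1 hH2 => ?_⟩
  · obtain ⟨hA0, hB0⟩ := hpos _ _ _ (Nat.cast_nonneg _) (Nat.cast_nonneg _) hAB
    have hD0 : 0 < (N / √((A.card : ℝ) * B.card)) ^ τ := by positivity
    have hH0 : (0 : ℝ) < H := lt_of_lt_of_le (by positivity) hH1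
    have g1 : (N : ℝ) ^ 2 ≤ (A.card : ℝ) * B.card * ℓ ^ (K + 1) := by
      refine hAB.trans (mul_le_mul_of_nonneg_left (pow_le_pow_right₀ (by linarith only [hℓ2]) (by omega)) (by positivity))
    have g2 : C₁ * (N / √((A.card : ℝ) * B.card)) ^ τ ≤ H := by
      refine le_trans ?_ hH1
      apply mul_le_mul_of_nonneg_right _ hD0.le
      exact le_mul_of_one_le_left hC₁.le h2τ
    have g3 := h1 A B hA hB g1 H g2 hH2
    rw [hℓ] at g3
    exact (mean_sub hB0 (mean_of_count hL hH0 hA0 g3)).trans (by linarith only [hηε, hε])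
  · obtain ⟨hA0, _⟩ := hpos _ _ _ (Nat.cast_nonneg _) hT.le hAT
    have hD0 : 0 < (N / √((A.card : ℝ) * T)) ^ τ := by positivity
    have hH0 : (0 : ℝ) < H := lt_of_lt_of_le (by positivity) hH1
    -- the exceptional translates, above and below
    have half : ∀ (s : ℝ), s = 1 ∨ s = -1 →
        (((range (N + 1)).filter (fun b => ε < s * (mean N H A b - 1))).card : ℝ) ≤ T / 2 := by
      intro s hs
      by_contra hcon
      rw [not_le] at hcon
      obtain ⟨B, hBdef⟩ : ∃ B, B = (range (N + 1)).filter (fun b => ε < s * (mean N H A b - 1)) := ⟨_, rfl⟩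
      rw [← hBdef] at hcon
      have hB : ∀ b ∈ B, b ≤ N := by
        intro b hb
        rw [hBdef, mem_filter, mem_range] at hb
        omega
      have hB0 : (0 : ℝ) < B.card := lt_of_le_of_lt (by positivity) hcon
      have hTB : T ≤ 2 * B.card := by linarith only [hcon]
      have g1 : (N : ℝ) ^ 2 ≤ (A.card : ℝ) * B.card * ℓ ^ (K + 1) := by
        calc (N : ℝ) ^ 2 ≤ (A.card : ℝ) * T * ℓ ^ K := hAT
          _ ≤ (A.card : ℝ) * (2 * B.card) * ℓ ^ K := by gcongr
          _ = (A.card : ℝ) * B.card * (2 * ℓ ^ K) := by ring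
          _ ≤ (A.card : ℝ) * B.card * (ℓ * ℓ ^ K) := by gcongr
          _ = _ := by rw [pow_succ]; ring
      have g2 : C₁ * (N / √((A.card : ℝ) * B.card)) ^ τ ≤ H := by
        refine le_trans ?_ hH1
        have g3 : √((A.card : ℝ) * T) ≤ 2 * √((A.card : ℝ) * B.card) := by
          apply Real.sqrt_le_iff.2
          refine ⟨by positivity, ?_⟩
          rw [mul_pow, Real.sq_sqrt (by positivity)]
          nlinarith only [mul_le_mul_of_nonneg_left hTB hA0.le, mul_pos hA0 hB0]
        have g4 : (N : ℝ) / √((A.card : ℝ) * B.card) ≤ 2 * (N / √((A.card : ℝ) * T)) := by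
          rw [← mul_div_assoc, div_le_div_iff₀ (by positivity) (by positivity)]
          calc (N : ℝ) * √((A.card : ℝ) * T) ≤ N * (2 * √((A.card : ℝ) * B.card)) := by gcongr
            _ = _ := by ring
        calc C₁ * (N / √((A.card : ℝ) * B.card)) ^ τ ≤ C₁ * (2 * (N / √((A.card : ℝ) * T))) ^ τ := by gcongr
          _ = 2 ^ τ * C₁ * (N / √((A.card : ℝ) * T)) ^ τ := by
              rw [Real.mul_rpow (by norm_num) (by positivity)]
              ring
      have g3 := h1 A B hA hB g1 H g2 hH2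
      rw [hℓ] at g3
      have h2 := mean_of_count hL hH0 hA0 g3
      have h3' : ε * B.card ≤ s * ∑ b ∈ B, (mean N H A b - 1) := by
        rw [mul_sum]
        calc ε * B.card = ∑ _b ∈ B, ε := by rw [sum_const, nsmul_eq_mul, mul_comm]
          _ ≤ _ := by
            apply sum_le_sum
            intro b hb
            rw [hBdef, mem_filter] at hb
            exact hb.2.le
      have h4 : s * ∑ b ∈ B, (mean N H A b - 1) ≤ |∑ b ∈ B, (mean N H A b - 1)| := by
        rcases hs with rfl | rfl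
        · rw [one_mul]; exact le_abs_self _
        · rw [neg_one_mul]; exact neg_le_abs _
      have h5 : 0 < ε * B.card := mul_pos hε hB0
      have h6 : η * B.card ≤ ε / 2 * B.card := mul_le_mul_of_nonneg_right hηε hB0.le
      linarith only [h2, h3', h4, h5, h6]
    have g1 := half 1 (Or.inl rfl)
    have g2 := half (-1) (Or.inr rfl)
    have hsub : (range (N + 1)).filter (fun b => ε < |mean N H A b - 1|) ⊆
        (range (N + 1)).filter (fun b => ε < (1 : ℝ) * (mean N H A b - 1)) ∪
        (range (N + 1)).filter (fun b => ε < (-1 : ℝ) * (mean N H A b - 1)) := by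
      intro b hb
      rw [mem_filter] at hb
      rw [mem_union, mem_filter, mem_filter]
      rcases lt_abs.1 hb.2 with h | h
      · exact Or.inl ⟨hb.1, by rw [one_mul]; exact h⟩
      · exact Or.inr ⟨hb.1, by rw [neg_one_mul]; exact h⟩
    have g3 : (((range (N + 1)).filter (fun b => ε < |mean N H A b - 1|)).card : ℝ) ≤
        (((range (N + 1)).filter (fun b => ε < (1 : ℝ) * (mean N H A b - 1))).card : ℝ) +
        (((range (N + 1)).filter (fun b => ε < (-1 : ℝ) * (mean N H A b - 1))).card : ℝ) := by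
      exact_mod_cast (card_le_card hsub).trans (card_union_le _ _)
    linarith only [g1, g2, g3]
  · have hA0 : (0 : ℝ) < A.card := lt_of_lt_of_le (by positivity) hAc
    have hB0 : (0 : ℝ) < B.card := lt_of_lt_of_le (by positivity) hBc
    have hH0 : (0 : ℝ) < H := lt_of_lt_of_le (Real.rpow_pos_of_pos hℓ0 _) hH1
    have hP : (δ * (N / ℓ)) * (δ * (N / ℓ)) ≤ (A.card : ℝ) * B.card := mul_le_mul hAc hBc (by positivity) hA0.le
    have g1 : (N : ℝ) ^ 2 ≤ (A.card : ℝ) * B.card * ℓ ^ 3 := by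
      have g0 : 1 ≤ δ ^ 2 * ℓ := by
        have : 1 / δ ^ 2 ≤ ℓ := by linarith only [hL2]
        rw [div_le_iff₀ (by positivity)] at this
        linarith only [this]
      calc (N : ℝ) ^ 2 = N ^ 2 * 1 := (mul_one _).symm
        _ ≤ N ^ 2 * (δ ^ 2 * ℓ) := by gcongr
        _ = ((δ * (N / ℓ)) * (δ * (N / ℓ))) * ℓ ^ 3 := by field_simp
        _ ≤ (A.card : ℝ) * B.card * ℓ ^ 3 := by gcongr
    have g2 : C₂ * (N / √((A.card : ℝ) * B.card)) ^ τ' ≤ H := by
      have g3 : δ * (N / ℓ) ≤ √((A.card : ℝ) * B.card) := by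
        apply Real.le_sqrt_of_sq_le
        rw [sq]
        exact hP
      have g4 : (N : ℝ) / √((A.card : ℝ) * B.card) ≤ 1 / δ * ℓ := by
        rw [div_le_iff₀ (by positivity)]
        calc (N : ℝ) = 1 / δ * ℓ * (δ * (N / ℓ)) := by field_simp
          _ ≤ _ := mul_le_mul_of_nonneg_left g3 (by positivity)
      calc C₂ * (N / √((A.card : ℝ) * B.card)) ^ τ' ≤ C₂ * (1 / δ * ℓ) ^ τ' := by gcongr
        _ = (C₂ * (1 / δ) ^ τ') * ℓ ^ τ' := by
            rw [Real.mul_rpow (by positivity) hℓ0.le]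
            ring
        _ ≤ ℓ ^ (τ - τ') * ℓ ^ τ' := mul_le_mul_of_nonneg_right hL3 (Real.rpow_nonneg hℓ0.le _)
        _ = ℓ ^ τ := by rw [← Real.rpow_add hℓ0]; rw [sub_add_cancel]
        _ ≤ H := hH1
    have g3 := h3 A B hA hB g1 H g2 hH2
    rw [hℓ] at g3
    exact (mean_sub hB0 (mean_of_count hL hH0 hA0 g3)).trans (by linarith only [hηε, hε])

end Pool.Agent.Results.MP_b09185_nt.SumsAtConstantScale
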