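import Pool.Agent.V11316.TB3

/-!
# Patterns of windows with many and with few primes in multiplication tables of dense sets

Let `θ > 0` be arbitrarily small and let `A` be an arbitrary set of integers in `[β X ^ θ, X ^ θ]` which contains a positive
proportion of the integers, or of the primes, of this interval, and let `C` be an arbitrary spread set of real numbers in
`(0, X ^ (1 - θ)]`. Write in each cell of the multiplication table with rows `a_1, a_2, …` in `A` and columns `c_1, c_2, …` in `C`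
the number of primes in the window `(a_i c_j - H_ij, a_i c_j)`, where the lengths `H_ij` are arbitrary,
`λ log X ≤ H_ij ≤ X ^ (1 - ρ)`.

We show that every pattern occurs: for almost all choices of `r` rows and `s` columns there is a positive proportion of choices
of `k` further rows and `l` further columns such that in the new cells, simultaneously, the number of primes is more than
`1 - δ` times, respectively less than `1 + δ` times, the expected number, as prescribed by an arbitrary pattern. For windows of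
length at most `μ log X` with `μ < 1` this means: one can prescribe arbitrarily which of the windows of the new cells contain a
prime.

Nothing is said about the `r s` old cells (their contents are determined by the choice of the rows and columns).
-/

set_option autoImplicit false

namespace Pool.Agent.Results.MP_b09185_nt.WindowPatternsInTables

open Finset

/-- the number of primes in the open interval `(x - H, x)`, divided by its expected value `H / log x` -/
noncomputable def density (H x : ℝ) : ℝ :=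
  (Set.ncard {p : ℕ | p.Prime ∧ x - H < p ∧ (p : ℝ) < x} : ℝ) * Real.log x / H

/-- the window `(x - H, x)` of length `H = q.2` contains many primes (if `q.1` is true), not many primes (if `q.1` is false) -/
def Cell (δ : ℝ) (q : Bool × ℝ) (x : ℝ) : Prop := if q.1 then 1 - δ < density q.2 x else density q.2 x < 1 + δ

/-- the window `(x - H, x)` of length `H = q.2` contains a prime if `q.1` is true, and contains no prime if `q.1` is false -/
def Exact (q : Bool × ℝ) (x : ℝ) : Prop := (∃ p : ℕ, p.Prime ∧ x - q.2 < p ∧ (p : ℝ) < x) ↔ q.1 = true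

/-- `A` is a set of integers in `[β X ^ θ, X ^ θ]` which contains at least `δ X ^ θ` integers, or which consists of at least
`δ X ^ θ / log X` primes -/
def Rows (β δ θ X : ℝ) (A : Finset ℕ) : Prop :=
  (∀ a ∈ A, 1 ≤ a ∧ β * X ^ θ ≤ (a : ℝ) ∧ (a : ℝ) ≤ X ^ θ) ∧
    (δ * X ^ θ ≤ A.card ∨ ((∀ a ∈ A, a.Prime) ∧ δ * (X ^ θ / Real.log X) ≤ A.card))

/-- `C` is a set of positive real numbers up to `X ^ (1 - θ)` which is spread: an interval of length `H / X ^ θ`, that is, the
`H / X`-th part of the length of `(0, X ^ (1 - θ)]`, contains at most the `B H / X`-th part of `C` -/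
def Columns (B θ X H : ℝ) (C : Finset ℝ) : Prop :=
  (∀ c ∈ C, 0 < c ∧ c ≤ X ^ (1 - θ)) ∧
    ∀ u : ℝ, ((C.filter (fun c => u ≤ c ∧ c ≤ u + H / X ^ θ)).card : ℝ) ≤ B * (H / X) * C.card

/-- all lengths of the pattern are between `H₁` and `H₂` -/
def Lengths {r s : ℕ} (H₁ H₂ : ℝ) (σ : Fin r → Fin s → Bool × ℝ) : Prop := ∀ i j, H₁ ≤ (σ i j).2 ∧ (σ i j).2 ≤ H₂

open Classical in
/-- the ways to complete the rows `a` and the columns `c` by `k` further rows and `l` further columns, such that the property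
`P q x` holds for all the new entries `x`, where `q` is the value of the patterns `σ` (old rows, new columns), `τ` (new rows, old
columns), `υ` (new rows, new columns) -/
noncomputable def completions {r s k l : ℕ} (P : Bool × ℝ → ℝ → Prop) (σ : Fin r → Fin l → Bool × ℝ)
    (τ : Fin k → Fin s → Bool × ℝ) (υ : Fin k → Fin l → Bool × ℝ) (A : Finset ℕ) (C : Finset ℝ) (a : Fin r → ℕ)
    (c : Fin s → ℝ) : Finset ((Fin k → ℕ) × (Fin l → ℝ)) :=
  (Fintype.piFinset (fun _ : Fin k => A) ×ˢ Fintype.piFinset (fun _ : Fin l => C)).filter (fun w =>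
    (∀ i j, P (σ i j) (a i * w.2 j)) ∧ (∀ i j, P (τ i j) (w.1 i * c j)) ∧ ∀ i j, P (υ i j) (w.1 i * w.2 j))

open Classical in
/-- the number of the choices of `r` rows and `s` columns which have less than `κ |A| ^ k |C| ^ l` completions -/
noncomputable def exceptions {r s k l : ℕ} (P : Bool × ℝ → ℝ → Prop) (σ : Fin r → Fin l → Bool × ℝ)
    (τ : Fin k → Fin s → Bool × ℝ) (υ : Fin k → Fin l → Bool × ℝ) (A : Finset ℕ) (C : Finset ℝ) (κ : ℝ) : ℕ :=
  ((Fintype.piFinset (fun _ : Fin r => A) ×ˢ Fintype.piFinset (fun _ : Fin s => C)).filter (fun z =>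
    ((completions P σ τ υ A C z.1 z.2).card : ℝ) < κ * ((A.card : ℝ) ^ k * (C.card : ℝ) ^ l))).card

/-- **Main theorem.** (1) All patterns of windows with at least `1 - δ` times and windows with at most `1 + δ` times the expected
number of primes, for arbitrary lengths between `H₀ ≥ λ log X` and `X ^ (1 - ρ)`. (2) All patterns of windows which contain a
prime and windows which do not, for arbitrary lengths between `λ log X` and `μ log X`, `μ < 1`. In both cases `κ` does not depend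
on `X`, the sets and the patterns. -/
theorem result (r s k l : ℕ) (θ lam ρ β δ B μ : ℝ) (hθ : 0 < θ) (hlam : 0 < lam) (hρ : 0 < ρ) (hβ : 0 < β) (hδ : 0 < δ)
    (hB : 1 ≤ B) (hμ0 : 0 < μ) (hμ : μ < 1) :
    (∃ κ : ℝ, 0 < κ ∧ ∃ X₀ : ℝ, ∀ X : ℝ, X₀ ≤ X → ∀ H₀ : ℝ, lam * Real.log X ≤ H₀ →
      ∀ (A : Finset ℕ) (C : Finset ℝ), Rows β δ θ X A → Columns B θ X H₀ C →
      ∀ (σ : Fin r → Fin l → Bool × ℝ) (τ : Fin k → Fin s → Bool × ℝ) (υ : Fin k → Fin l → Bool × ℝ),
        Lengths H₀ (X ^ (1 - ρ)) σ → Lengths H₀ (X ^ (1 - ρ)) τ → Lengths H₀ (X ^ (1 - ρ)) υ →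
        (exceptions (Cell δ) σ τ υ A C κ : ℝ) ≤ δ * ((A.card : ℝ) ^ r * (C.card : ℝ) ^ s)) ∧
    (∃ κ : ℝ, 0 < κ ∧ ∃ X₀ : ℝ, ∀ X : ℝ, X₀ ≤ X →
      ∀ (A : Finset ℕ) (C : Finset ℝ), Rows β δ θ X A → Columns B θ X (lam * Real.log X) C →
      (∀ c ∈ C, β * X ^ (1 - θ) ≤ c) →
      ∀ (σ : Fin r → Fin l → Bool × ℝ) (τ : Fin k → Fin s → Bool × ℝ) (υ : Fin k → Fin l → Bool × ℝ),
        Lengths (lam * Real.log X) (μ * Real.log X) σ → Lengths (lam * Real.log X) (μ * Real.log X) τ →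
        Lengths (lam * Real.log X) (μ * Real.log X) υ →
        (exceptions Exact σ τ υ A C κ : ℝ) ≤ δ * ((A.card : ℝ) ^ r * (C.card : ℝ) ^ s)) := by
  classical
  have hcell : ∀ (δ : ℝ) (q : Bool × ℝ) (x : ℝ), Cell δ q x ↔ V11316.TB.Gd δ q.1 (Y851.PT.ZH q.2 x) := by
    intro δ q x
    unfold Cell V11316.TB.Gd density
    rw [Y851.PT.ZH_eq]
    unfold Y851.PT.NH
    rfl
  have hadm : ∀ {X : ℝ} {A : Finset ℕ}, Rows β δ θ X A → Y851.PS.Adm δ θ X A ∧ ∀ a ∈ A, β * X ^ θ ≤ (a : ℝ) := by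
    intro X A h
    exact ⟨⟨fun a ha => ⟨(h.1 a ha).1, (h.1 a ha).2.2⟩, h.2⟩, fun a ha => (h.1 a ha).2.1⟩
  have hcol : ∀ {X H : ℝ} {C : Finset ℝ}, Columns B θ X H C → Y851.PT.SpH B H θ X C := by
    intro X H C h
    refine ⟨fun c hc => (h.1 c hc).1, fun c hc => (h.1 c hc).2, fun u => ?_⟩
    convert h.2 u
  have hexc : ∀ (P : Bool × ℝ → ℝ → Prop) (δ' H₁ H₂ : ℝ) (σ : Fin r → Fin l → Bool × ℝ) (τ : Fin k → Fin s → Bool × ℝ)
      (υ : Fin k → Fin l → Bool × ℝ) (A : Finset ℕ) (C : Finset ℝ) (κ T : ℝ),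
      Lengths H₁ H₂ σ → Lengths H₁ H₂ τ → Lengths H₁ H₂ υ →
      (∀ a ∈ A, ∀ c ∈ C, ∀ q : Bool × ℝ, H₁ ≤ q.2 → q.2 ≤ H₂ → V11316.TB.Gd δ' q.1 (Y851.PT.ZH q.2 (a * c)) → P q (a * c)) →
      (((Fintype.piFinset (fun _ : Fin r => A) ×ˢ Fintype.piFinset (fun _ : Fin s => C)).filter (fun z => ¬
        (κ * ((A.card : ℝ) ^ k * (C.card : ℝ) ^ l) ≤
          ((V11316.TB.Comp δ' σ τ υ A C (fun H (a : ℕ) (c : ℝ) => Y851.PT.ZH H (a * c)) z.1 z.2).card : ℝ)))).card : ℝ) ≤ T →
      (exceptions P σ τ υ A C κ : ℝ) ≤ T := by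
    intro P δ' H₁ H₂ σ τ υ A C κ T hσ hτ hυ hP hT
    refine le_trans (Nat.cast_le.2 ?_) hT
    unfold exceptions
    apply card_le_card
    intro z hz
    rw [mem_filter] at hz ⊢
    refine ⟨hz.1, fun hcon => ?_⟩
    have hz1 := mem_product.1 hz.1
    have hz2 : ∀ i, z.1 i ∈ A := Fintype.mem_piFinset.1 hz1.1
    have hz3 : ∀ j, z.2 j ∈ C := Fintype.mem_piFinset.1 hz1.2
    have hsub : V11316.TB.Comp δ' σ τ υ A C (fun H (a : ℕ) (c : ℝ) => Y851.PT.ZH H (a * c)) z.1 z.2 ⊆ completions P σ τ υ A C z.1 z.2 := by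
      intro w hw
      unfold V11316.TB.Comp at hw
      unfold completions
      rw [mem_filter] at hw ⊢
      have hw1 := mem_product.1 hw.1
      have hw2 : ∀ i, w.1 i ∈ A := Fintype.mem_piFinset.1 hw1.1
      have hw3 : ∀ j, w.2 j ∈ C := Fintype.mem_piFinset.1 hw1.2
      exact ⟨hw.1, fun i j => hP _ (hz2 i) _ (hw3 j) _ (hσ i j).1 (hσ i j).2 (hw.2.1 i j),
        fun i j => hP _ (hw2 i) _ (hz3 j) _ (hτ i j).1 (hτ i j).2 (hw.2.2.1 i j),
        fun i j => hP _ (hw2 i) _ (hw3 j) _ (hυ i j).1 (hυ i j).2 (hw.2.2.2 i j)⟩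
    have h1 : ((V11316.TB.Comp δ' σ τ υ A C (fun H (a : ℕ) (c : ℝ) => Y851.PT.ZH H (a * c)) z.1 z.2).card : ℝ) ≤
        ((completions P σ τ υ A C z.1 z.2).card : ℝ) := Nat.cast_le.2 (card_le_card hsub)
    linarith only [hz.2, hcon, h1]
  constructor
  · obtain ⟨κ, hκ, h⟩ := V11316.TB.primes_table r s k l θ lam ρ δ B β (min 1 δ) δ hθ hlam hρ hδ hB hβ (lt_min one_pos hδ)
      (min_le_left _ _) hδ
    obtain ⟨X₀, hX₀⟩ := Filter.eventually_atTop.1 h
    refine ⟨κ, hκ, X₀, fun X hX H₀ hH₀ A C hA hC σ τ υ hσ hτ hυ => ?_⟩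
    refine hexc (Cell δ) (min 1 δ) H₀ (X ^ (1 - ρ)) σ τ υ A C κ _ hσ hτ hυ (fun a _ c _ q _ _ hb => ?_)
      (hX₀ X hX H₀ hH₀ A C (hadm hA).1 (hadm hA).2 (hcol hC) σ τ υ hσ hτ hυ)
    rw [hcell]
    have h1 := min_le_right 1 δ
    unfold V11316.TB.Gd at hb ⊢
    split_ifs at hb ⊢ <;> linarith only [h1, hb]
  · have hd0 : 0 < min 1 ((1 / μ - 1) / 2) := by
      apply lt_min one_pos
      have : 1 < 1 / μ := by rw [lt_div_iff₀ hμ0]; linarith only [hμ]
      linarith only [this]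
    obtain ⟨κ, hκ, h⟩ := V11316.TB.primes_table r s k l θ lam (1 / 2) δ B β (min 1 ((1 / μ - 1) / 2)) δ hθ hlam (by norm_num) hδ hB
      hβ hd0 (min_le_left _ _) hδ
    have hev : ∀ᶠ X : ℝ in Filter.atTop, μ * Real.log X ≤ X ^ (1 - 1 / 2 : ℝ) := by
      have h := (isLittleO_log_rpow_atTop (show (0 : ℝ) < 1 - 1 / 2 by norm_num)).bound (show 0 < 1 / μ by positivity)
      filter_upwards [h, Filter.eventually_ge_atTop 1] with X hX hX1
      have h1 := Real.log_nonneg hX1
      rw [Real.norm_eq_abs, Real.norm_eq_abs, abs_of_nonneg h1, abs_of_nonneg (by positivity)] at hX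
      calc μ * Real.log X ≤ μ * (1 / μ * X ^ (1 - 1 / 2 : ℝ)) := mul_le_mul_of_nonneg_left hX hμ0.le
        _ = X ^ (1 - 1 / 2 : ℝ) := by field_simp
    obtain ⟨X₀, hX₀⟩ := Filter.eventually_atTop.1 ((h.and hev).and ((V11316.TB.entry_log μ β hβ hμ).and
      (Filter.eventually_gt_atTop 1)))
    refine ⟨κ, hκ, X₀, fun X hX A C hA hC hCβ σ τ υ hσ hτ hυ => ?_⟩
    obtain ⟨⟨g1, g2⟩, g3, g4⟩ := hX₀ X hX
    have hlog : 0 < Real.log X := Real.log_pos g4
    have hup : ∀ {m n : ℕ} (σ : Fin m → Fin n → Bool × ℝ), Lengths (lam * Real.log X) (μ * Real.log X) σ →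
        Lengths (lam * Real.log X) (X ^ (1 - 1 / 2 : ℝ)) σ := fun σ h i j => ⟨(h i j).1, (h i j).2.trans g2⟩
    refine hexc Exact (min 1 ((1 / μ - 1) / 2)) (lam * Real.log X) (μ * Real.log X) σ τ υ A C κ _ hσ hτ hυ
      (fun a ha c hc q hq1 hq2 hb => ?_)
      (g1 (lam * Real.log X) le_rfl A C (hadm hA).1 (hadm hA).2 (hcol hC) σ τ υ (hup σ hσ) (hup τ hτ) (hup υ hυ))
    obtain ⟨e1, e2⟩ := g3 θ a c ((hadm hA).2 a ha) (hCβ c hc)
    exact V11316.TB.short_window hμ0 hμ g4 (lt_of_lt_of_le (mul_pos hlam hlog) hq1) hq2 e2 e1 q.1 hb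

end Pool.Agent.Results.MP_b09185_nt.WindowPatternsInTables
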